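import Pool.Agent.H82.EOL.Stmts

set_option autoImplicit false
set_option linter.unusedSectionVars false

/-!
Board eol (MP_e1dfa1_lc): row W3.
-/

namespace Pool.Agent.H21.EOL

open Finset Pool.Agent.H82.SVL Pool.Agent.H82.EOL

theorem w3_ind_congr {p q : Prop} (h : p ↔ q) : ind p = ind q := by
  have : p = q := propext h
  rw [this]

theorem w3_ind_true {p : Prop} (h : p) : ind p = 1 := by
  simp [ind, h]

theorem w3_ind_false {p : Prop} (h : ¬ p) : ind p = 0 := by
  simp [ind, h]

theorem w3_av_mem {D : Type} [DecidableEq D] {srt : D → ℕ} {Y E X : Finset D} {d : D}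
    {τ : Om srt} (hd : d ∈ E) : Av Y E (insert d X) τ ↔ Av Y E X τ := by
  unfold Av
  constructor
  · intro h a ha haE
    exact h a (mem_insert_of_mem ha) haE
  · intro h a ha haE
    rcases mem_insert.1 ha with rfl | ha
    · exact absurd hd haE
    · exact h a ha haE

theorem w3_av_not {D : Type} [DecidableEq D] {srt : D → ℕ} {Y E X : Finset D} {d : D}
    {τ : Om srt} (hd : d ∉ E) (hY : τ.1 d ∉ Y) :
    Av Y E (insert d X) τ ↔ Av Y (insert d E) X τ := by
  unfold Av
  constructor
  · intro h a ha haE
    exact h a (mem_insert_of_mem ha) (fun h' => haE (mem_insert_of_mem h'))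
  · intro h a ha haE
    rcases mem_insert.1 ha with rfl | ha
    · exact hY
    · by_cases had : a = d
      · rw [had]; exact hY
      · refine h a ha ?_
        rw [mem_insert]
        tauto

theorem w3_fr_lt {D : Type} [Fintype D] [DecidableEq D] (srt : D → ℕ) (Y E : Finset D) (d : D)
    (m : ℕ) (h : E.card + m + Y.card < (fib srt d).card) : ny srt Y d < fr srt E d := by
  have h1 : (fib srt d).card - E.card ≤ (fib srt d \ E).card := le_card_sdiff _ _
  have h2 : ny srt Y d ≤ Y.card := card_filter_le _ _
  unfold fr
  omega

theorem w3_count {D : Type} [Fintype D] [DecidableEq D] (srt : D → ℕ) (Y E : Finset D) (d : D)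
    (π : Om srt) (h : ∀ b ∈ E, π.1 b ∉ Y) :
    (((Fr E π d).filter (fun v => v ∉ Y)).card : ℝ) = (fr srt E d : ℝ) - ny srt Y d := by
  have h1 : (Fr E π d).filter (fun v => v ∈ Y) = Y.filter (fun v => srt v = srt d) := by
    ext v
    simp only [mem_filter, mem_Fr]
    constructor
    · rintro ⟨⟨h2, _⟩, h3⟩
      exact ⟨h3, h2⟩
    · rintro ⟨h2, h3⟩
      refine ⟨⟨h3, ?_⟩, h2⟩
      intro b hb hbv
      exact h b hb (hbv ▸ h2)
  have h2 := card_filter_add_card_filter_not (s := Fr E π d) (fun v => v ∈ Y)
  rw [h1, card_Fr] at h2
  have h3 : ny srt Y d = (Y.filter (fun v => srt v = srt d)).card := rfl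
  rw [← h2, h3]
  push_cast
  ring

theorem w3_thm (h1 : S_W1) : S_W3 := by
  intro D _ _ srt Y α T
  induction T with
  | leaf a =>
    intro m E π _ _ _
    simp only [Tree.qs_leaf, union_empty]
    rw [sum_congr rfl (fun τ _ => by
      rw [w3_ind_true (p := Av Y E ∅ τ) (by intro a ha; simp at ha), one_mul])]
    rw [sum_const, nsmul_eq_mul, mul_comm]
  | query d k ih =>
    intro m E π hT hE hcard
    cases m with
    | zero => exact absurd hT (by simp [Tree.DLe])
    | succ m =>
      by_cases hd : d ∈ E
      · rw [← ih (π.1 d) m E π (hT _) hE (fun a => by have := hcard a; omega)]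
        refine sum_congr rfl (fun τ hτ => ?_)
        have e1 : τ.1 d = π.1 d := mem_C.1 hτ d hd
        simp only [Tree.qs_query, e1]
        rw [w3_ind_congr (w3_av_mem hd), union_insert, insert_eq_of_mem (mem_union_left _ hd)]
      · rw [sum_C_fiber hd]
        have hfr := w3_fr_lt srt Y E d (m + 1) (hcard d)
        have hfr0 : (fr srt E d : ℝ) ≠ 0 := by
          have : 0 < fr srt E d := by omega
          positivity
        have key : ∀ v ∈ Fr E π d, ∑ σ ∈ (C E π).filter (fun σ => σ.1 d = v),
            ind (Av Y E (Tree.qs σ.1 (Tree.query d k)) σ) *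
              gw srt Y (E ∪ Tree.qs σ.1 (Tree.query d k))
            = if v ∉ Y then gw srt Y (insert d E) * ((C E π).card / fr srt E d : ℝ) else 0 := by
          intro v hv
          obtain ⟨σ, hσ, hσd⟩ := Pool.Agent.H82.SVL.exists_apply_eq hd hv
          have e1 : (C E π).filter (fun σ => σ.1 d = v) = C (insert d E) σ := by
            rw [← hσd, filter_eq_C hσ]
          rw [e1]
          by_cases hvY : v ∈ Y
          swap
          · rw [if_pos hvY]
            have hc : ((C E π).card : ℝ) / fr srt E d = ((C (insert d E) σ).card : ℝ) := by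
              rw [div_eq_iff hfr0, ← C_eq_of_mem hσ, card_C_insert hd σ]
              push_cast
              ring
            rw [hc, ← ih v m (insert d E) σ (hT _) ?_ ?_]
            · refine sum_congr rfl (fun τ hτ => ?_)
              have e2 : τ.1 d = v := by rw [← hσd]; exact mem_C.1 hτ d (mem_insert_self _ _)
              simp only [Tree.qs_query, e2]
              rw [w3_ind_congr (w3_av_not hd (by rw [e2]; exact hvY)), union_insert,
                insert_union]
            · intro b hb
              rcases mem_insert.1 hb with rfl | hb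
              · rw [hσd]; exact hvY
              · rw [mem_C.1 hσ b hb]; exact hE b hb
            · intro a
              rw [card_insert_of_notMem hd]
              have := hcard a
              omega
          · rw [if_neg (not_not.2 hvY)]
            refine sum_eq_zero (fun τ hτ => ?_)
            have e2 : τ.1 d = v := by rw [← hσd]; exact mem_C.1 hτ d (mem_insert_self _ _)
            rw [w3_ind_false, zero_mul]
            intro hAv
            refine hAv d (by simp) hd ?_
            rw [e2]
            exact hvY
        rw [sum_congr rfl key, ← sum_filter, sum_const, nsmul_eq_mul, w3_count srt Y E d π hE,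
          h1 D srt Y E d hd]
        have h3 : (fr srt E d : ℝ) - ny srt Y d ≠ 0 := by
          have : (ny srt Y d : ℝ) < fr srt E d := by exact_mod_cast hfr
          linarith [sub_pos.2 this] |> ne_of_gt
        field_simp
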